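import Mathlib

/-!
# Statements of the analytic blocks of the recurrence for the Liouville sums (project IT)
-/

set_option autoImplicit false

namespace Pool.Agent.Helper95.IT

open MeasureTheory

/-- block GA: Stirling upper bound in the strip `1/2 ≤ Re ≤ 3/2` (Phragmen-Lindelof for `Γ(z+1/2) (z+1)^{-z}`) -/
def StmtGA : Prop := ∃ C : ℝ, 0 < C ∧ ∀ x y : ℝ, 0 ≤ x → x ≤ 1 →
  ‖Complex.Gamma (1 / 2 + x + Complex.I * y)‖ ≤ C * (1 + |y|) ^ x * Real.exp (-(Real.pi * |y| / 2))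

/-- the point `c + iv` -/
noncomputable def pt (c v : ℝ) : ℂ := (c : ℂ) + Complex.I * (v : ℂ)

/-- block FE: the quotient `ζ(2s)/ζ(s)` on the line `Re s = c`, `0 < c < 1/4` -/
def StmtFE : Prop := ∀ c : ℝ, 0 < c → c < 1 / 4 → ∃ C : ℝ, 0 < C ∧ ∀ v : ℝ, riemannZeta (pt c v) ≠ 0 →
  ‖riemannZeta (2 * pt c v) / riemannZeta (pt c v)‖ ≤
    C * (1 + |v|) ^ (-c) * ‖riemannZeta (1 - 2 * pt c v)‖ * ‖(riemannZeta (1 - pt c v))⁻¹‖

/-- the majorant of the jumps -/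
noncomputable def mj (u : ℝ) : ℝ := if 0 ≤ u then (⌊Real.exp u⌋₊ : ℝ) + Real.exp u else 0

/-- block MV: mean values by Plancherel -/
def StmtMV : Prop := ∀ (f : ℝ → ℝ) (K θ σ ε : ℝ), Measurable f → 0 ≤ K → 0 ≤ θ → θ < σ → 1 + θ < 2 * σ → 0 < ε →
  (∀ u, u < 0 → f u = 0) → (∀ u, 0 ≤ u → |f u| ≤ K * Real.exp (θ * u)) →
  (∀ u h : ℝ, 0 ≤ h → |f (u + h) - f u| ≤ mj (u + h) - mj u) →
  Integrable (fun v : ℝ => ‖∫ u : ℝ, (f u : ℂ) * Complex.exp (-(pt σ v * u))‖ ^ 2 * (1 + |v|) ^ (1 - ε))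

end Pool.Agent.Helper95.IT
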