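import Pool.Agent.Helper95.IT.RepS
import Pool.Agent.Helper66.IT.Rep
import Pool.Agent.Helper11.IT.PX

/-!
# The twisted remainder for the Liouville sums
-/

set_option autoImplicit false

open Complex Filter Topology MeasureTheory Set
open Pool.Agent.Helper57.Zeta
open Pool.Agent.Helper71.MR Pool.Agent.Helper71.MA Pool.Agent.Helper71.LA
open Pool.Agent.Helper11.IT

namespace Pool.Agent.Helper95.IT

theorem xi_pt_ne (hRH : ∀ s : ℂ, 1 / 2 < s.re → s ≠ 1 → riemannZeta s ≠ 0) {c : ℝ} (hc : 0 < c) (hc2 : c < 1 / 4)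
    (v : ℝ) : xi (pt c v) ≠ 0 := by
  have hre : (pt c v).re = c := by simp [pt]
  have h1 : pt c v ≠ 1 := by
    intro h
    have : (pt c v).re = 1 := by rw [h]; simp
    rw [hre] at this; linarith
  have h0 : pt c v ≠ 0 := by
    intro h
    have : (pt c v).re = 0 := by rw [h]; simp
    rw [hre] at this; linarith
  rw [xi_eq_zeta (by rw [hre]; exact hc) h1]
  exact mul_ne_zero (mul_ne_zero h0 (sub_ne_zero.mpr h1))
    (mul_ne_zero (Gammaℝ_ne_zero_of_re_pos (by rw [hre]; exact hc)) (zeta_pt_ne hRH hc hc2 v))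

/-- the remainder is a Fourier integral on `Re s = c` -/
theorem rho_rep' (hU : StmtUniq) (hRH : ∀ s : ℂ, 1 / 2 < s.re → s ≠ 1 → riemannZeta s ≠ 0) {c : ℝ} (hc : 0 < c)
    (hc2 : c < 1 / 4) (u : ℝ) : (rho u : ℂ) = (1 / (2 * Real.pi) : ℝ) *
      ∫ v : ℝ, Gq c v * cexp ((((c - 1 / 2 : ℝ) : ℂ) + Complex.I * v) * u) := by
  rw [rho_rep hU hc hc2 (xi_pt_ne hRH hc hc2) (GG_int hRH hc hc2) u]
  unfold rt
  congr 1
  apply integral_congr_ae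
  filter_upwards with v
  congr 3
  simp only [pt]
  push_cast
  ring

/-- **the remainder bound**, with decay in `u` and in `t` -/
theorem rem_la' (hU : StmtUniq) (hRH : ∀ s : ℂ, 1 / 2 < s.re → s ≠ 1 → riemannZeta s ≠ 0) {c : ℝ} (hc : 0 < c)
    (hc2 : c < 1 / 4) : ∃ W : ℝ, 0 < W ∧ ∀ t : ℝ, ∃ k : ℂ, ∀ u : ℝ, 0 ≤ u → ‖(rho u : ℂ) + Complex.I * t *
      (∫ w in (0:ℝ)..u, (rho w : ℂ) * cexp ((Complex.I * t - 1 / 2) * (u - w))) -
        k * cexp ((Complex.I * t - 1 / 2) * u)‖ ≤ W * (1 + |t|) ^ (-(c / 4)) * Real.exp ((c - 1 / 2) * u) := by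
  obtain ⟨W, hW, h⟩ := GG_W hRH hc hc2
  refine ⟨W, hW, fun t => ?_⟩
  exact Pool.Agent.Helper66.IT.rem_of_rep hc (by linarith) (GG_int hRH hc hc2)
    (fun u _ => rho_rep' hU hRH hc hc2 u) (h t).1 (h t).2

theorem rem_la_of (hU : StmtUniq) (hRH : ∀ s : ℂ, 1 / 2 < s.re → s ≠ 1 → riemannZeta s ≠ 0) :
    ∃ C : ℝ, ∀ t : ℝ, ∃ k : ℂ, ∀ u : ℝ, 0 ≤ u → ‖(rho u : ℂ) + Complex.I * t *
      (∫ w in (0:ℝ)..u, (rho w : ℂ) * cexp ((Complex.I * t - 1 / 2) * (u - w))) -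
        k * cexp ((Complex.I * t - 1 / 2) * u)‖ ≤ C := by
  obtain ⟨W, hW, h⟩ := rem_la' hU hRH (c := 1 / 8) (by norm_num) (by norm_num)
  refine ⟨W, fun t => ?_⟩
  obtain ⟨k, hk⟩ := h t
  refine ⟨k, fun u hu => (hk u hu).trans ?_⟩
  have h1 : (1 + |t|) ^ (-((1 / 8 : ℝ) / 4)) ≤ 1 :=
    Real.rpow_le_one_of_one_le_of_nonpos (by linarith [abs_nonneg t]) (by norm_num)
  have h2 : Real.exp ((1 / 8 - 1 / 2) * u) ≤ 1 := Real.exp_le_one_iff.mpr (by nlinarith)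
  have h3 : 0 ≤ (1 + |t|) ^ (-((1 / 8 : ℝ) / 4)) := by positivity
  calc W * (1 + |t|) ^ (-((1 / 8 : ℝ) / 4)) * Real.exp ((1 / 8 - 1 / 2) * u) ≤ W * 1 * 1 := by
        apply mul_le_mul (mul_le_mul_of_nonneg_left h1 hW.le) h2 (Real.exp_pos _).le (by positivity)
    _ = W := by ring

end Pool.Agent.Helper95.IT
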