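import Pool.Agent.Helper71.LA.LDec
import Pool.Agent.Helper57.LH.ZetaBd

/-!
# Laplace transforms of the Liouville sum and of its completion
-/

set_option autoImplicit false

open Complex Filter Topology MeasureTheory Set
open Pool.Agent.Helper57.Zeta
open Pool.Agent.Helper71.MR Pool.Agent.Helper71.MA Pool.Agent.Helper71.LA
open Pool.Agent.Helper18.ES (K K_inv K_pos mu mu_le Phi GA S lam lam_le kp GA_lam XR XR_pos bb bb_mul AL
  adm_AL adm_S GA_AL GA_AL_bound mellin_GA_AL GA_diff P Adm)

namespace Pool.Agent.Helper95.IT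

/-- the transform of an average against the kernel -/
theorem conv_lap {f : ℝ → ℝ} {z : ℂ} (hf : Integrable (fun t : ℝ => (f t : ℂ) * cexp (-(z * t)))) :
    ∫ y : ℝ, ((∫ u : ℝ, f (y + u) * kr u : ℝ) : ℂ) * cexp (-(z * y)) =
      (∫ t : ℝ, (f t : ℂ) * cexp (-(z * t))) * (1 / 2 * xi (1 / 2 + z)) := by
  set F : ℝ → ℂ := fun t => (f t : ℂ) * cexp (-(z * t)) with hF
  set g : ℝ → ℂ := fun u => (kr u : ℂ) * cexp (-(z * u)) with hg
  have hgi : Integrable g := kr_fast.lap_integrable z
  have hgv : ∫ u, g u = 1 / 2 * xi (1 / 2 + z) := by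
    have h1 := kr_lap (-z)
    have h2 : xi (1 / 2 + -z) = xi (1 / 2 + z) := by
      rw [← xi_one_sub (1 / 2 + z)]; congr 1; ring
    rw [h2] at h1
    rw [← h1]
    apply integral_congr_ae
    filter_upwards with u
    simp only [hg]
    congr 2; ring
  have hconv := integral_convolution (ContinuousLinearMap.mul ℂ ℂ) hf hgi
  simp only [ContinuousLinearMap.mul_apply'] at hconv
  rw [hgv] at hconv
  rw [← hconv]
  apply integral_congr_ae
  filter_upwards with y
  rw [MeasureTheory.convolution_def]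
  simp only [ContinuousLinearMap.mul_apply', hg]
  rw [← integral_complex_ofReal, ← integral_mul_const, ← integral_sub_right_eq_self _ y]
  apply integral_congr_ae
  filter_upwards with t
  rw [show y + (t - y) = t by ring, ← kr_even (t - y), show -(t - y) = y - t by ring]
  have : cexp (-(z * t)) * cexp (-(z * ((y - t : ℝ) : ℂ))) = cexp (-(z * y)) := by
    rw [← Complex.exp_add]; congr 1; push_cast; ring
  rw [← this]
  push_cast
  ring

theorem gr_diff {s : ℂ} (hs : 0 < s.re) : DifferentiableAt ℂ Complex.Gammaℝ s := by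
  have h := (differentiable_Gammaℝ_inv s).inv (inv_ne_zero (Gammaℝ_ne_zero_of_re_pos hs))
  have e : (fun s : ℂ => (Gammaℝ s)⁻¹)⁻¹ = Gammaℝ := by
    ext s
    simp
  rwa [e] at h

/-- the transform of the averaged Liouville sum, continued -/
theorem cf_val {w : ℂ} (h0 : -(1 / 2) < w.re) (h3 : w.re < 1) (hw : w ≠ 0) :
    cf el w = riemannZeta (2 * (1 / 2 + w)) * ((1 / 2) * ((1 / 2 + w) - 1) * Complex.Gammaℝ (1 / 2 + w)) -
        bb * ((1 / w) * ((1 / 2) * xi (1 / 2 + w))) := by
  obtain ⟨B, hB0, hB⟩ := GA_AL_bound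
  have hBz : ∀ z : ℝ, 1 ≤ z → |GA AL z| ≤ B * z ^ (0 : ℝ) := by
    intro z hz
    rw [Real.rpow_zero, mul_one]
    exact hB z (by linarith)
  set U : Set ℂ := {s : ℂ | 0 < s.re ∧ s.re < 3} with hU
  have hUo : IsOpen U := (isOpen_lt continuous_const Complex.continuous_re).inter
    (isOpen_lt Complex.continuous_re continuous_const)
  have hUc : IsPreconnected U := by
    have : U = Complex.re ⁻¹' (Ioo 0 3) := by ext s; simp [hU]
    rw [this]
    exact ((convex_Ioo (0:ℝ) 3).linear_preimage Complex.reLm).isPreconnected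
  set g1 : ℂ → ℂ := fun s => (s - 1 / 2) * mellin (fun z : ℝ => (GA AL z : ℂ)) (-s) with hg1
  set g2 : ℂ → ℂ := fun s => (1 / 2) * Pool.Agent.Helper57.LH.Zt (2 * s) * ((1 / 2) * (s - 1) * Complex.Gammaℝ s) -
    bb * ((1 / 2) * xi s) with hg2
  have hd1 : DifferentiableOn ℂ g1 U := by
    intro s hs
    apply DifferentiableAt.differentiableWithinAt
    apply DifferentiableAt.mul (by fun_prop)
    have h := GA_diff adm_AL hBz (s := s) hs.1 hs.2
    exact DifferentiableAt.comp (g := mellin (fun z : ℝ => (GA AL z : ℂ))) (f := fun s : ℂ => -s) s h (by fun_prop)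
  have hd2 : DifferentiableOn ℂ g2 U := by
    intro s hs
    apply DifferentiableAt.differentiableWithinAt
    apply DifferentiableAt.sub
    · apply DifferentiableAt.mul
      · apply DifferentiableAt.const_mul
        exact DifferentiableAt.comp s (Pool.Agent.Helper57.LH.differentiable_Zt _) (by fun_prop)
      · exact DifferentiableAt.mul (by fun_prop) (gr_diff hs.1)
    · exact ((differentiable_xi s).const_mul _).const_mul _
  have hmem1 : (1 : ℂ) ∈ U := by simp [hU]
  have hev : g1 =ᶠ[𝓝 1] g2 := by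
    have hV : {s : ℂ | 1 / 2 < s.re ∧ s.re < 3} ∈ 𝓝 (1 : ℂ) := by
      apply IsOpen.mem_nhds ((isOpen_lt continuous_const Complex.continuous_re).inter
        (isOpen_lt Complex.continuous_re continuous_const))
      simp; norm_num
    filter_upwards [hV] with s hs
    have h1 := mellin_GA_AL hs.1 hs.2
    have h2 : s - 1 / 2 ≠ 0 := by
      intro h
      have : (s - 1 / 2).re = 0 := by rw [h]; simp
      simp at this
      linarith [hs.1]
    have h4 : 0 < (2 * s).re := by
      have : (2 * s).re = 2 * s.re := by simp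
      rw [this]
      linarith [hs.1]
    have h5 : 2 * s ≠ 1 := by
      intro h
      apply h2
      linear_combination (1 / 2 : ℂ) * h
    simp only [hg1, hg2]
    rw [h1, Pool.Agent.Helper57.LH.Zt_eq h4 h5, show 2 * s - 1 = 2 * (s - 1 / 2) by ring]
    generalize s - 1 / 2 = y at h2 ⊢
    field_simp
  have hEq := (hd1.analyticOnNhd hUo).eqOn_of_preconnected_of_eventuallyEq (hd2.analyticOnNhd hUo) hUc hmem1 hev
  have hs : (1 / 2 + w) ∈ U := by
    simp only [hU, mem_setOf_eq, Complex.add_re]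
    have : (1 / 2 : ℂ).re = 1 / 2 := by norm_num
    rw [this]
    constructor <;> linarith
  have h1 := hEq hs
  simp only [hg1, hg2] at h1
  have h4 : 0 < (2 * (1 / 2 + w)).re := by
    have : (2 * (1 / 2 + w)).re = 1 + 2 * w.re := by simp; ring
    rw [this]
    linarith
  have h5 : 2 * (1 / 2 + w) ≠ 1 := by
    intro h
    apply hw
    linear_combination (1 / 2 : ℂ) * h
  rw [show (1 / 2 + w - 1 / 2 : ℂ) = w by ring, Pool.Agent.Helper57.LH.Zt_eq h4 h5,
    show 2 * (1 / 2 + w) - 1 = 2 * w by ring] at h1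
  rw [cf_eq]
  apply mul_left_cancel₀ hw
  rw [h1]
  field_simp

/-- the normalised Liouville sum -/
noncomputable def ll (t : ℝ) : ℝ := S lam (Real.exp t) * Real.exp (-t / 2)

/-- the remainder -/
noncomputable def rho (t : ℝ) : ℝ := (1 + II (Real.exp t)) * Real.exp (-t / 2)

theorem ll_eq (t : ℝ) : ll t = Lf t + bb + rho t := by
  unfold ll Lf rho; ring

theorem ll_eq1 (t : ℝ) : ll t = l1 t + if t < 0 then 0 else bb := by
  unfold ll l1 AL P
  rcases lt_or_ge t 0 with h | h
  · rw [if_pos h, indicator_of_notMem (by simp only [mem_Ici, not_le]; exact Real.exp_lt_one_iff.2 h)]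
    ring
  · rw [if_neg (not_lt.mpr h), indicator_of_mem (by exact Real.one_le_exp h)]
    have h1 : √(Real.exp t) * Real.exp (-t / 2) = 1 := by
      rw [Real.sqrt_eq_rpow, ← Real.exp_mul, ← Real.exp_add, show t * (1 / 2) + -t / 2 = 0 by ring, Real.exp_zero]
    linear_combination bb * h1

theorem rho_eq2 (t : ℝ) : rho t = -l2 t - if t < 0 then bb else 0 := by
  rw [l2_eq]; unfold rho; ring

theorem ll_zero {t : ℝ} (ht : t < 0) : ll t = 0 := by
  unfold ll
  rw [(adm_S lam_le).zero (Real.exp t) (Real.exp_lt_one_iff.2 ht), zero_mul]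

theorem ll_meas : Measurable ll := by
  unfold ll
  have := (adm_S lam_le).meas
  fun_prop

theorem rho_meas : Measurable rho := by
  unfold rho
  have := II_meas
  fun_prop

theorem rho_cont : Continuous rho := by
  unfold rho
  apply Continuous.mul _ (by fun_prop)
  apply continuous_const.add
  rw [continuous_iff_continuousAt]
  intro t
  exact (II_cont.continuousAt (Ioi_mem_nhds (Real.exp_pos t))).comp Real.continuous_exp.continuousAt

theorem rho_bd {t : ℝ} (ht : 0 ≤ t) : |rho t| ≤ (1 + CI) * Real.exp (-t / 2) := by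
  unfold rho
  rw [abs_mul, abs_of_pos (Real.exp_pos _)]
  apply mul_le_mul_of_nonneg_right _ (Real.exp_pos _).le
  have h1 := IIexp_le t
  have h2 : Real.exp (-t / 4) ≤ 1 := Real.exp_le_one_iff.mpr (by linarith)
  have h3 := mul_le_mul_of_nonneg_left h2 CI_nonneg
  have h4 := abs_add_le 1 (II (Real.exp t))
  rw [abs_one] at h4
  linarith

/-- the common value of both transforms -/
noncomputable def ZZ (z : ℂ) : ℂ := riemannZeta (2 * (1 / 2 + z)) / ((1 / 2 + z) * riemannZeta (1 / 2 + z))

theorem quot_val {w : ℂ} (h0 : -(1 / 2) < w.re) (h3 : w.re < 1 / 2) (hw : w ≠ 0) (hx : xi (1 / 2 + w) ≠ 0) :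
    cf el w / (1 / 2 * xi (1 / 2 + w)) = ZZ w - bb / w := by
  have hre : (1 / 2 + w).re = 1 / 2 + w.re := by simp
  have hp : 0 < (1 / 2 + w).re := by rw [hre]; linarith
  have h1 : (1 / 2 + w) ≠ 1 := by
    intro h
    have : (1 / 2 + w).re = 1 := by rw [h]; simp
    rw [hre] at this; linarith
  have h2 : (1 / 2 + w) - 1 ≠ 0 := sub_ne_zero.mpr h1
  have h4 : (1 / 2 + w) ≠ 0 := by
    intro h
    have : (1 / 2 + w).re = 0 := by rw [h]; simp
    rw [hre] at this; linarith
  have hG := Gammaℝ_ne_zero_of_re_pos hp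
  have hxe := xi_eq_zeta hp h1
  have hz : riemannZeta (1 / 2 + w) ≠ 0 := by
    intro h
    apply hx
    rw [hxe, h]; ring
  rw [cf_val h0 (by linarith) hw]
  unfold ZZ
  rw [hxe]
  generalize (1 / 2 + w) = s at *
  field_simp

theorem integral_exp_Ioi {z : ℂ} (hz : 0 < z.re) : ∫ t in Ioi (0:ℝ), cexp (-(z * t)) = 1 / z := by
  have h := integral_exp_mul_complex_Ioi (a := -z) (by simpa using hz) 0
  have e : ∀ t : ℝ, cexp (-z * t) = cexp (-(z * t)) := fun t => by congr 1; ring
  simp_rw [e] at h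
  rw [h]
  simp

end Pool.Agent.Helper95.IT
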