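import Pool.Agent.Helper95.IT.Lap
import Pool.Agent.Helper95.IT.Stmts

/-!
# The averages of the remainder as a Fourier integral
-/

set_option autoImplicit false

open Complex Filter Topology MeasureTheory Set
open Pool.Agent.Helper57.Zeta
open Pool.Agent.Helper71.MR Pool.Agent.Helper71.MA Pool.Agent.Helper71.LA
open Pool.Agent.Helper18.ES (S lam lam_le bb adm_S)
open scoped FourierTransform

namespace Pool.Agent.Helper95.IT

theorem conv_pt (f : ℝ → ℝ) (z : ℂ) (y : ℝ) :
    (convolution (fun t : ℝ => (f t : ℂ) * cexp (-(z * t))) (fun u : ℝ => (kr u : ℂ) * cexp (-(z * u)))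
      (ContinuousLinearMap.mul ℂ ℂ) volume) y = ((∫ u : ℝ, f (y + u) * kr u : ℝ) : ℂ) * cexp (-(z * y)) := by
  rw [MeasureTheory.convolution_def]
  simp only [ContinuousLinearMap.mul_apply']
  rw [← integral_complex_ofReal, ← integral_mul_const]
  symm
  rw [← integral_sub_right_eq_self _ y]
  apply integral_congr_ae
  filter_upwards with t
  rw [show y + (t - y) = t by ring, ← kr_even (t - y), show -(t - y) = y - t by ring]
  have : cexp (-(z * t)) * cexp (-(z * ((y - t : ℝ) : ℂ))) = cexp (-(z * y)) := by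
    rw [← Complex.exp_add]; congr 1; push_cast; ring
  rw [← this]
  push_cast
  ring

theorem conv_lap_int {f : ℝ → ℝ} {z : ℂ} (hf : Integrable (fun t : ℝ => (f t : ℂ) * cexp (-(z * t)))) :
    Integrable (fun y : ℝ => ((∫ u : ℝ, f (y + u) * kr u : ℝ) : ℂ) * cexp (-(z * y))) := by
  have hgi : Integrable (fun u : ℝ => (kr u : ℂ) * cexp (-(z * u))) := kr_fast.lap_integrable z
  have h := hf.integrable_convolution (ContinuousLinearMap.mul ℂ ℂ) hgi
  exact h.congr (Filter.Eventually.of_forall (conv_pt f z))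

/-- the constant on the left half line -/
noncomputable def bn (t : ℝ) : ℝ := if t < 0 then bb else 0

theorem bn_meas : Measurable bn := by
  unfold bn
  exact Measurable.ite measurableSet_Iio measurable_const measurable_const

theorem bn_ind (w : ℂ) : (fun t : ℝ => (bn t : ℂ) * cexp (-(w * t))) =
    (Iio (0:ℝ)).indicator (fun t : ℝ => (bb : ℂ) * cexp ((-w) * t)) := by
  ext t
  unfold bn
  by_cases h : t < 0
  · rw [if_pos h, indicator_of_mem (show t ∈ Iio (0:ℝ) from h)]
    congr 2; ring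
  · rw [if_neg h, indicator_of_notMem (show t ∉ Iio (0:ℝ) from h)]
    simp

theorem bn_int {w : ℂ} (hw : w.re < 0) : Integrable (fun t : ℝ => (bn t : ℂ) * cexp (-(w * t))) := by
  rw [bn_ind, integrable_indicator_iff measurableSet_Iio]
  have h : IntegrableOn (fun t : ℝ => cexp ((-w) * t)) (Iic 0) := integrableOn_exp_mul_complex_Iic (by simpa using hw) 0
  exact (h.mono_set Iio_subset_Iic_self).const_mul _

theorem bn_lap {w : ℂ} (hw : w.re < 0) : ∫ t : ℝ, (bn t : ℂ) * cexp (-(w * t)) = -(bb / w) := by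
  rw [bn_ind, integral_indicator measurableSet_Iio, ← integral_Iic_eq_integral_Iio, integral_const_mul,
    integral_exp_mul_complex_Iic (by simpa using hw)]
  simp
  rw [div_eq_mul_inv]

/-- the averages of the remainder -/
noncomputable def qr (y : ℝ) : ℝ := ∫ u : ℝ, rho (y + u) * kr u

theorem exp_le_abs {a t : ℝ} (h : |a| ≤ 3 / 4) : Real.exp (a * t) ≤ Real.exp (3 / 4 * |t|) := by
  apply Real.exp_le_exp.mpr
  calc a * t ≤ |a * t| := le_abs_self _
    _ = |a| * |t| := abs_mul _ _
    _ ≤ 3 / 4 * |t| := mul_le_mul_of_nonneg_right h (abs_nonneg _)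

theorem bn_bd (t : ℝ) : |bn t| ≤ |bb| * Real.exp (3 / 4 * |t|) := by
  have h1 : 1 ≤ Real.exp (3 / 4 * |t|) := Real.one_le_exp (by positivity)
  unfold bn
  split_ifs
  · nlinarith [abs_nonneg bb]
  · rw [abs_zero]; positivity

theorem l2_bd' (t : ℝ) : |l2 t| ≤ 2 * (1 + CI + |bb|) * Real.exp (3 / 4 * |t|) := by
  have h := l2_bd t
  have h1 := exp_le_abs (a := -1 / 2) (t := t) (by rw [abs_le]; constructor <;> norm_num)
  have h2 := exp_le_abs (a := -(3 / 4)) (t := t) (by rw [abs_le]; constructor <;> norm_num)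
  have hC := CI_nonneg
  rw [show -t / 2 = -1 / 2 * t by ring, show -(3 * t / 4) = -(3 / 4) * t by ring] at h
  nlinarith [abs_nonneg bb, Real.exp_pos (-1 / 2 * t), Real.exp_pos (-(3 / 4) * t)]

theorem rho_bd3 (t : ℝ) : |rho t| ≤ (2 * (1 + CI + |bb|) + |bb|) * Real.exp (3 / 4 * |t|) := by
  have h1 := l2_bd' t
  have h2 := bn_bd t
  have h3 : rho t = -l2 t - bn t := rho_eq2 t
  rw [h3]
  have h4 : |-l2 t - bn t| ≤ |l2 t| + |bn t| := by
    rw [← neg_add', abs_neg]; exact abs_add_le _ _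
  nlinarith

theorem qr_eq (y : ℝ) : qr y = el y - ∫ u : ℝ, bn (y + u) * kr u := by
  have i1 := rint l2_meas l2_bd' y
  have i2 := rint bn_meas bn_bd y
  have h := l2_conv y
  unfold qr
  have e : ∀ u : ℝ, rho (y + u) * kr u = -(l2 (y + u) * kr u) - bn (y + u) * kr u := by
    intro u
    have h3 : rho (y + u) = -l2 (y + u) - bn (y + u) := rho_eq2 _
    rw [h3]; ring
  simp_rw [e]
  rw [integral_sub (f := fun u => -(l2 (y + u) * kr u)) i1.neg i2, integral_neg, h, neg_neg]

theorem qr_cont : Continuous qr := by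
  rw [continuous_iff_continuousAt]
  intro y0
  obtain ⟨C, hC⟩ := ker_kr.fast 2
  unfold qr
  apply continuousAt_of_dominated (bound := fun u : ℝ => ((2 * (1 + CI + |bb|) + |bb|) * Real.exp (3 / 4 * (|y0| + 1))) *
    (Real.exp (3 / 4 * |u|) * kr u))
  · filter_upwards with y
    apply Continuous.aestronglyMeasurable
    have := rho_cont
    have := kr_cont
    fun_prop
  · filter_upwards [Metric.ball_mem_nhds y0 one_pos] with y hy
    filter_upwards with u
    have hy1 : |y| ≤ |y0| + 1 := by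
      rw [Metric.mem_ball, Real.dist_eq] at hy
      have := abs_sub_abs_le_abs_sub y y0
      linarith
    rw [norm_mul, Real.norm_eq_abs, Real.norm_of_nonneg (kr_pos u).le]
    have h1 := rho_bd3 (y + u)
    have h2 : Real.exp (3 / 4 * |y + u|) ≤ Real.exp (3 / 4 * (|y0| + 1)) * Real.exp (3 / 4 * |u|) := by
      rw [← Real.exp_add]
      apply Real.exp_le_exp.mpr
      have := abs_add_le y u
      linarith
    have hc0 : 0 ≤ 2 * (1 + CI + |bb|) + |bb| := by
      have := CI_nonneg
      positivity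
    calc |rho (y + u)| * kr u ≤ ((2 * (1 + CI + |bb|) + |bb|) * Real.exp (3 / 4 * |y + u|)) * kr u :=
          mul_le_mul_of_nonneg_right h1 (kr_pos u).le
      _ ≤ ((2 * (1 + CI + |bb|) + |bb|) * (Real.exp (3 / 4 * (|y0| + 1)) * Real.exp (3 / 4 * |u|))) * kr u := by
          apply mul_le_mul_of_nonneg_right _ (kr_pos u).le
          exact mul_le_mul_of_nonneg_left h2 hc0
      _ = _ := by ring
  · apply Integrable.const_mul
    have h := rint (f := fun t => Real.exp (3 / 4 * |t|)) (by fun_prop) (B := 1) (by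
      intro t
      rw [abs_of_pos (Real.exp_pos _), one_mul]) 0
    simpa using h
  · filter_upwards with u
    have := rho_cont
    apply Continuous.continuousAt
    fun_prop

theorem qr_lap {w : ℂ} (h0 : -(1 / 2) < w.re) (h1 : w.re < 0) (hx : xi (1 / 2 + w) ≠ 0) :
    Integrable (fun y : ℝ => (qr y : ℂ) * cexp (-(w * y))) ∧
    ∫ y : ℝ, (qr y : ℂ) * cexp (-(w * y)) = ZZ w * (1 / 2 * xi (1 / 2 + w)) := by
  obtain ⟨B, hd⟩ := dec
  have i1 : Integrable (fun s : ℝ => (el s : ℂ) * cexp (-(w * s))) := hd.e_int (by rw [abs_lt]; constructor <;> linarith)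
  have i2 := conv_lap_int (bn_int h1)
  have e : (fun y : ℝ => (qr y : ℂ) * cexp (-(w * y))) = fun y : ℝ => (el y : ℂ) * cexp (-(w * y)) -
      ((∫ u : ℝ, bn (y + u) * kr u : ℝ) : ℂ) * cexp (-(w * y)) := by
    ext y
    rw [qr_eq]
    push_cast
    ring
  have hw : w ≠ 0 := by
    rintro rfl
    simp at h1
  have hF : (1 / 2 * xi (1 / 2 + w)) ≠ 0 := mul_ne_zero (by norm_num) hx
  refine ⟨by rw [e]; exact i1.sub i2, ?_⟩
  rw [e, integral_sub i1 i2, conv_lap (bn_int h1), bn_lap h1]
  have hq := quot_val h0 (by linarith) hw hx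
  have hcf : cf el w = (ZZ w - bb / w) * (1 / 2 * xi (1 / 2 + w)) := by
    rw [← hq, div_mul_cancel₀ _ hF]
  have : ∫ s : ℝ, (el s : ℂ) * cexp (-(w * s)) = cf el w := rfl
  rw [this, hcf]
  ring

/-- the quotient on the line `Re s = c` -/
noncomputable def Gq (c v : ℝ) : ℂ := riemannZeta (2 * pt c v) / (pt c v * riemannZeta (pt c v))

theorem ZZ_pt (c v : ℝ) : ZZ (pt c v - 1 / 2) = Gq c v := by
  unfold ZZ Gq
  rw [show 1 / 2 + (pt c v - 1 / 2) = pt c v by ring]

/-- the averages as a Fourier integral -/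
theorem qr_rep {c : ℝ} (hc : 0 < c) (hc2 : c < 1 / 2) (hx : ∀ v, xi (pt c v) ≠ 0)
    (hG : Integrable (fun v => Gq c v * (1 / 2 * xi (pt c v)))) (y : ℝ) :
    (qr y : ℂ) = (1 / (2 * Real.pi) : ℝ) * ∫ v : ℝ, (Gq c v * (1 / 2 * xi (pt c v))) * cexp ((pt c v - 1 / 2) * y) := by
  set κ : ℝ := 1 / 2 - c with hκ
  set g : ℝ → ℂ := fun y => (qr y : ℂ) * cexp ((κ : ℂ) * y) with hg
  have hw : ∀ v : ℝ, (pt c v - 1 / 2).re = c - 1 / 2 := by
    intro v; simp [pt]
  have hl : ∀ v : ℝ, Integrable (fun y : ℝ => (qr y : ℂ) * cexp (-((pt c v - 1 / 2) * y))) ∧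
      ∫ y : ℝ, (qr y : ℂ) * cexp (-((pt c v - 1 / 2) * y)) = Gq c v * (1 / 2 * xi (pt c v)) := by
    intro v
    have h := qr_lap (w := pt c v - 1 / 2) (by rw [hw]; linarith) (by rw [hw]; linarith)
      (by rw [show 1 / 2 + (pt c v - 1 / 2) = pt c v by ring]; exact hx v)
    rw [ZZ_pt, show 1 / 2 + (pt c v - 1 / 2) = pt c v by ring] at h
    exact h
  have hgi : Integrable g := by
    have h := (hl 0).1
    refine h.congr ?_
    filter_upwards with y
    simp only [hg]
    congr 2
    simp only [pt, hκ]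
    push_cast
    ring
  have hF : ∀ ξ : ℝ, 𝓕 g ξ = Gq c (2 * Real.pi * ξ) * (1 / 2 * xi (pt c (2 * Real.pi * ξ))) := by
    intro ξ
    rw [Real.fourier_eq', ← (hl (2 * Real.pi * ξ)).2]
    apply integral_congr_ae
    filter_upwards with y
    simp only [hg, smul_eq_mul]
    rw [mul_left_comm, ← Complex.exp_add]
    congr 2
    simp only [pt, hκ]
    simp
    ring
  have hpi : (2 * Real.pi) ≠ 0 := by positivity
  have hFi : Integrable (𝓕 g) := by
    have h : Integrable (fun ξ : ℝ => Gq c (2 * Real.pi * ξ) * (1 / 2 * xi (pt c (2 * Real.pi * ξ)))) :=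
      hG.comp_mul_left' hpi
    exact h.congr (Filter.Eventually.of_forall fun ξ => (hF ξ).symm)
  have hgc : Continuous g := by
    have := qr_cont
    simp only [hg]
    fun_prop
  have h4 := hgi.fourierInv_fourier_eq hFi hgc.continuousAt (v := y)
  rw [Real.fourierInv_eq'] at h4
  have h5 : ∫ ξ : ℝ, cexp (↑(2 * Real.pi * inner ℝ ξ y) * Complex.I) • 𝓕 g ξ =
      ∫ ξ : ℝ, (fun v : ℝ => cexp (Complex.I * v * y) * (Gq c v * (1 / 2 * xi (pt c v)))) (2 * Real.pi * ξ) := by
    apply integral_congr_ae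
    filter_upwards with ξ
    rw [hF ξ, smul_eq_mul]
    congr 2
    simp
    ring
  rw [h5, Measure.integral_comp_mul_left (g := fun v : ℝ => cexp (Complex.I * v * y) * (Gq c v * (1 / 2 * xi (pt c v))))] at h4
  have h6 : (qr y : ℂ) = cexp (-((κ : ℂ) * y)) * g y := by
    simp only [hg]
    rw [mul_left_comm, ← Complex.exp_add]
    simp
  rw [h6, ← h4, abs_of_pos (by positivity), ← one_div, Complex.real_smul, mul_left_comm, ← integral_const_mul]
  congr 1
  apply integral_congr_ae
  filter_upwards with v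
  rw [← mul_assoc, ← Complex.exp_add, mul_comm]
  congr 2
  simp only [pt, hκ]
  push_cast
  ring

end Pool.Agent.Helper95.IT
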