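import Pool.Agent.Helper95.IT.RepR

/-!
# The remainder as a Fourier integral
-/

set_option autoImplicit false

open Complex Filter Topology MeasureTheory Set
open Pool.Agent.Helper57.Zeta
open Pool.Agent.Helper71.MR Pool.Agent.Helper71.MA Pool.Agent.Helper71.LA
open Pool.Agent.Helper18.ES (S lam lam_le bb adm_S)

namespace Pool.Agent.Helper95.IT

/-- uniqueness for the kernel, as used below -/
def StmtUniq : Prop := ∀ (D : ℝ → ℝ) (A κ : ℝ), Continuous D → 1 / 4 < κ → κ < 1 / 2 →
  (∀ u, u ≤ 0 → |D u| ≤ A * Real.exp (-(3 / 4) * u)) → (∀ u, 0 ≤ u → |D u| ≤ A * Real.exp (-κ * u)) →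
  (∀ y, ∫ s : ℝ, D (y + s) * kr s = 0) → ∀ u, D u = 0

/-- the Fourier integral -/
noncomputable def rt (c u : ℝ) : ℂ := (1 / (2 * Real.pi) : ℝ) * ∫ v : ℝ, Gq c v * cexp ((pt c v - 1 / 2) * u)

theorem norm_ex (c v u : ℝ) : ‖cexp ((pt c v - 1 / 2) * u)‖ = Real.exp ((c - 1 / 2) * u) := by
  rw [Complex.norm_exp]
  congr 1
  simp [pt]

theorem pt_cont (c : ℝ) : Continuous (pt c) := by unfold pt; fun_prop

theorem rt_int {c : ℝ} (hG : Integrable (Gq c)) (u : ℝ) :
    Integrable (fun v : ℝ => Gq c v * cexp ((pt c v - 1 / 2) * u)) := by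
  refine Integrable.mono' (hG.norm.mul_const (Real.exp ((c - 1 / 2) * u))) ?_ ?_
  · apply hG.1.mul
    apply Continuous.aestronglyMeasurable
    have := pt_cont c
    fun_prop
  · filter_upwards with v
    rw [norm_mul, norm_ex]

theorem rt_bd {c : ℝ} (u : ℝ) :
    ‖rt c u‖ ≤ (1 / (2 * Real.pi) * ∫ v : ℝ, ‖Gq c v‖) * Real.exp ((c - 1 / 2) * u) := by
  unfold rt
  rw [norm_mul, Complex.norm_real, Real.norm_of_nonneg (by positivity), mul_assoc]
  apply mul_le_mul_of_nonneg_left _ (by positivity)
  rw [← integral_mul_const]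
  refine (norm_integral_le_integral_norm _).trans (le_of_eq ?_)
  apply integral_congr_ae
  filter_upwards with v
  rw [norm_mul, norm_ex]

theorem rt_cont {c : ℝ} (hc2 : c < 1 / 2) (hG : Integrable (Gq c)) : Continuous (rt c) := by
  unfold rt
  apply continuous_const.mul
  rw [continuous_iff_continuousAt]
  intro u0
  apply continuousAt_of_dominated (bound := fun v : ℝ => ‖Gq c v‖ * Real.exp ((c - 1 / 2) * (u0 - 1)))
  · filter_upwards with u
    exact (rt_int hG u).1
  · filter_upwards [Metric.ball_mem_nhds u0 one_pos] with u hu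
    filter_upwards with v
    rw [norm_mul, norm_ex]
    apply mul_le_mul_of_nonneg_left _ (norm_nonneg _)
    apply Real.exp_le_exp.mpr
    rw [Metric.mem_ball, Real.dist_eq, abs_lt] at hu
    nlinarith [hu.1]
  · exact hG.norm.mul_const _
  · filter_upwards with v
    apply Continuous.continuousAt
    fun_prop

theorem xi_pt (c v : ℝ) : 1 / 2 * xi (pt c v) = ∫ u : ℝ, (kr u : ℂ) * cexp ((pt c v - 1 / 2) * u) := by
  rw [kr_lap, show 1 / 2 + (pt c v - 1 / 2) = pt c v by ring]

theorem kr_exp_int (a : ℝ) : Integrable (fun u : ℝ => kr u * Real.exp (a * u)) := by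
  have h := (kr_fast.lap_integrable (-(a : ℂ))).norm
  refine h.congr ?_
  filter_upwards with u
  rw [norm_mul, norm_cexp_neg_mul, Complex.norm_real, Real.norm_of_nonneg (kr_pos _).le]
  simp

theorem xi_pt_le (c v : ℝ) : ‖1 / 2 * xi (pt c v)‖ ≤ ∫ u : ℝ, kr u * Real.exp ((c - 1 / 2) * u) := by
  rw [xi_pt]
  refine (norm_integral_le_integral_norm _).trans (le_of_eq ?_)
  apply integral_congr_ae
  filter_upwards with u
  rw [norm_mul, norm_ex, Complex.norm_real, Real.norm_of_nonneg (kr_pos _).le]

theorem xi_pt_cont (c : ℝ) : Continuous (fun v => 1 / 2 * xi (pt c v)) := by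
  have h1 := differentiable_xi.continuous
  have h2 := pt_cont c
  fun_prop

theorem Gx_int {c : ℝ} (hG : Integrable (Gq c)) : Integrable (fun v => Gq c v * (1 / 2 * xi (pt c v))) := by
  refine Integrable.mono' (hG.norm.mul_const (∫ u : ℝ, kr u * Real.exp ((c - 1 / 2) * u))) ?_ ?_
  · exact hG.1.mul (xi_pt_cont c).aestronglyMeasurable
  · filter_upwards with v
    rw [norm_mul]
    exact mul_le_mul_of_nonneg_left (xi_pt_le c v) (norm_nonneg _)

/-- the averages of the Fourier integral -/
theorem rt_conv {c : ℝ} (hG : Integrable (Gq c)) (y : ℝ) : ∫ s : ℝ, rt c (y + s) * (kr s : ℂ) =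
    (1 / (2 * Real.pi) : ℝ) * ∫ v : ℝ, (Gq c v * (1 / 2 * xi (pt c v))) * cexp ((pt c v - 1 / 2) * y) := by
  set F : ℝ → ℝ → ℂ := fun s v => Gq c v * (cexp ((pt c v - 1 / 2) * ((y + s : ℝ) : ℂ)) * (kr s : ℂ)) with hF
  have hdom : Integrable (fun p : ℝ × ℝ => (Real.exp ((c - 1 / 2) * y) * (kr p.1 * Real.exp ((c - 1 / 2) * p.1))) *
      ‖Gq c p.2‖) ((volume : Measure ℝ).prod (volume : Measure ℝ)) :=
    Integrable.mul_prod (f := fun s : ℝ => Real.exp ((c - 1 / 2) * y) * (kr s * Real.exp ((c - 1 / 2) * s)))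
      (g := fun v : ℝ => ‖Gq c v‖) ((kr_exp_int _).const_mul _) hG.norm
  have hint : Integrable (Function.uncurry F) ((volume : Measure ℝ).prod (volume : Measure ℝ)) := by
    refine Integrable.mono' hdom ?_ ?_
    · simp only [hF, Function.uncurry_def]
      apply AEStronglyMeasurable.mul
      · exact hG.1.comp_snd
      · apply Continuous.aestronglyMeasurable
        have := pt_cont c
        have := kr_cont
        fun_prop
    · filter_upwards with p
      simp only [hF, Function.uncurry_def]
      rw [norm_mul, norm_mul, norm_ex, Complex.norm_real, Real.norm_of_nonneg (kr_pos _).le, mul_add, Real.exp_add]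
      apply le_of_eq
      ring
  have hsw := integral_integral_swap hint
  have e1 : ∀ s : ℝ, ((1 / (2 * Real.pi) : ℝ) : ℂ) * ∫ v : ℝ, F s v = rt c (y + s) * (kr s : ℂ) := by
    intro s
    unfold rt
    rw [mul_assoc, ← integral_mul_const]
    congr 1
    apply integral_congr_ae
    filter_upwards with v
    simp only [hF]
    ring
  have e2 : ∀ v : ℝ, ∫ s : ℝ, F s v = (Gq c v * (1 / 2 * xi (pt c v))) * cexp ((pt c v - 1 / 2) * y) := by
    intro v
    simp only [hF]
    rw [integral_const_mul, xi_pt, mul_assoc, ← integral_mul_const]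
    congr 1
    apply integral_congr_ae
    filter_upwards with s
    rw [mul_assoc, ← Complex.exp_add, mul_comm]
    congr 2
    push_cast
    ring
  simp_rw [← e1]
  rw [integral_const_mul, hsw]
  simp_rw [e2]

theorem rt_kr_int {c : ℝ} (hc2 : c < 1 / 2) (hG : Integrable (Gq c)) (y : ℝ) :
    Integrable (fun s : ℝ => rt c (y + s) * (kr s : ℂ)) := by
  refine Integrable.mono' (((kr_exp_int (c - 1 / 2)).const_mul
    ((1 / (2 * Real.pi) * ∫ v : ℝ, ‖Gq c v‖) * Real.exp ((c - 1 / 2) * y)))) ?_ ?_
  · apply Continuous.aestronglyMeasurable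
    have := rt_cont hc2 hG
    have := kr_cont
    fun_prop
  · filter_upwards with s
    rw [norm_mul, Complex.norm_real, Real.norm_of_nonneg (kr_pos _).le]
    have h := rt_bd (c := c) (y + s)
    rw [mul_add, Real.exp_add] at h
    calc ‖rt c (y + s)‖ * kr s ≤ _ := mul_le_mul_of_nonneg_right h (kr_pos _).le
      _ = _ := by ring

/-- the remainder is the Fourier integral -/
theorem rho_rep (hU : StmtUniq) {c : ℝ} (hc : 0 < c) (hc2 : c < 1 / 4) (hx : ∀ v, xi (pt c v) ≠ 0)
    (hG : Integrable (Gq c)) (u : ℝ) : (rho u : ℂ) = rt c u := by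
  have hc3 : c < 1 / 2 := by linarith
  have hq : ∀ y, ∫ s : ℝ, rt c (y + s) * (kr s : ℂ) = (qr y : ℂ) := by
    intro y
    rw [rt_conv hG, ← qr_rep hc hc3 hx (Gx_int hG)]
  set W : ℝ := 1 / (2 * Real.pi) * ∫ v : ℝ, ‖Gq c v‖ with hW
  have hW0 : 0 ≤ W := by
    rw [hW]
    apply mul_nonneg (by positivity)
    exact integral_nonneg fun _ => norm_nonneg _
  have hC := CI_nonneg
  have hb := abs_nonneg bb
  set A : ℝ := (2 * (1 + CI + |bb|) + |bb|) + W with hA
  have hcont := rt_cont hc3 hG
  have hre : ∀ y, ∫ s : ℝ, (rt c (y + s)).re * kr s = qr y := by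
    intro y
    have h := Complex.reCLM.integral_comp_comm (rt_kr_int hc3 hG y)
    rw [hq y] at h
    simp only [Complex.reCLM_apply, Complex.ofReal_re] at h
    rw [← h]
    apply integral_congr_ae
    filter_upwards with s
    simp
  have him : ∀ y, ∫ s : ℝ, (rt c (y + s)).im * kr s = 0 := by
    intro y
    have h := Complex.imCLM.integral_comp_comm (rt_kr_int hc3 hG y)
    rw [hq y] at h
    simp only [Complex.imCLM_apply, Complex.ofReal_im] at h
    rw [← h]
    apply integral_congr_ae
    filter_upwards with s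
    simp
  have hle : ∀ u : ℝ, u ≤ 0 → Real.exp ((c - 1 / 2) * u) ≤ Real.exp (-(3 / 4) * u) := by
    intro u hu
    apply Real.exp_le_exp.mpr
    nlinarith
  have h1 : ∀ u, rho u - (rt c u).re = 0 := by
    apply hU (fun u => rho u - (rt c u).re) A (1 / 2 - c) ?_ (by linarith) (by linarith)
    · intro u hu
      have h2 := rho_bd3 u
      rw [abs_of_nonpos hu, show 3 / 4 * -u = -(3 / 4) * u by ring] at h2
      have h3 := rt_bd (c := c) u
      have h4 := (Complex.abs_re_le_norm (rt c u)).trans h3
      have h5 := mul_le_mul_of_nonneg_left (hle u hu) hW0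
      have h6 := abs_sub (rho u) (rt c u).re
      rw [hA]
      linarith
    · intro u hu
      have h2 := rho_bd hu
      have h3 := rt_bd (c := c) u
      have h4 := (Complex.abs_re_le_norm (rt c u)).trans h3
      have h6 := abs_sub (rho u) (rt c u).re
      have h7 : Real.exp (-u / 2) ≤ Real.exp (-(1 / 2 - c) * u) := by
        apply Real.exp_le_exp.mpr
        nlinarith
      have h8 : Real.exp ((c - 1 / 2) * u) = Real.exp (-(1 / 2 - c) * u) := by
        congr 1; ring
      rw [h8] at h4
      have h9 := Real.exp_pos (-(1 / 2 - c) * u)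
      rw [hA]
      nlinarith
    · intro y
      have i1 := rint rho_meas rho_bd3 y
      have i2 : Integrable (fun s : ℝ => (rt c (y + s)).re * kr s) := by
        refine (rt_kr_int hc3 hG y).re.congr ?_
        filter_upwards with s
        simp
      have e : ∀ s : ℝ, (rho (y + s) - (rt c (y + s)).re) * kr s = rho (y + s) * kr s - (rt c (y + s)).re * kr s := by
        intro s; ring
      simp_rw [e]
      rw [integral_sub i1 i2, hre y]
      unfold qr
      ring
    · exact rho_cont.sub (Complex.continuous_re.comp hcont)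
  have h2 : ∀ u, (rt c u).im = 0 := by
    apply hU (fun u => (rt c u).im) A (1 / 2 - c) ?_ (by linarith) (by linarith)
    · intro u hu
      have h3 := rt_bd (c := c) u
      have h4 := (Complex.abs_im_le_norm (rt c u)).trans h3
      have h5 := mul_le_mul_of_nonneg_left (hle u hu) hW0
      have h9 := Real.exp_pos (-(3 / 4) * u)
      rw [hA]
      nlinarith
    · intro u hu
      have h3 := rt_bd (c := c) u
      have h4 := (Complex.abs_im_le_norm (rt c u)).trans h3
      have h8 : Real.exp ((c - 1 / 2) * u) = Real.exp (-(1 / 2 - c) * u) := by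
        congr 1; ring
      rw [h8] at h4
      have h9 := Real.exp_pos (-(1 / 2 - c) * u)
      rw [hA]
      nlinarith
    · exact him
    · exact Complex.continuous_im.comp hcont
  apply Complex.ext
  · rw [Complex.ofReal_re]
    linarith [h1 u]
  · rw [Complex.ofReal_im]
    exact (h2 u).symm

end Pool.Agent.Helper95.IT
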