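import Pool.Agent.Helper95.IT.Lap

/-!
# The twist operator on the logarithmic scale
-/

set_option autoImplicit false

open Complex Filter Topology MeasureTheory Set
open Pool.Agent.Helper57.Zeta
open Pool.Agent.Helper71.MR Pool.Agent.Helper71.MA Pool.Agent.Helper71.LA
open Pool.Agent.Helper18.ES (S lam lam_le bb adm_S)

namespace Pool.Agent.Helper95.IT

/-- bounded measurable functions -/
structure Bd (f : ℝ → ℝ) (K : ℝ) : Prop where
  meas : Measurable f
  bd : ∀ t, |f t| ≤ K

theorem Bd.nonneg {f : ℝ → ℝ} {K : ℝ} (h : Bd f K) : 0 ≤ K := (abs_nonneg _).trans (h.bd 0)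

/-- the kernel of the twist -/
noncomputable def ka (t v : ℝ) : ℂ := cexp ((Complex.I * t - 1 / 2) * v)

theorem norm_ka (t v : ℝ) : ‖ka t v‖ = Real.exp (-v / 2) := by
  unfold ka
  rw [Complex.norm_exp]
  congr 1
  simp
  ring

theorem ka_cont (t : ℝ) : Continuous (ka t) := by unfold ka; fun_prop

theorem int_exp_half : IntegrableOn (fun v : ℝ => Real.exp (-v / 2)) (Ioi 0) := by
  have h := integrableOn_exp_mul_Ioi (a := -(1 / 2)) (by norm_num) 0
  refine h.congr_fun (fun v _ => ?_) measurableSet_Ioi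
  simp only
  congr 1; ring

theorem int_exp_half_val : ∫ v in Ioi (0:ℝ), Real.exp (-v / 2) = 2 := by
  have h := integral_exp_mul_Ioi (a := -(1 / 2)) (by norm_num) 0
  have e : ∀ v : ℝ, Real.exp (-(1 / 2) * v) = Real.exp (-v / 2) := fun v => by congr 1; ring
  simp_rw [e] at h
  rw [h]; simp

theorem Bd.int {f : ℝ → ℝ} {K : ℝ} (h : Bd f K) (t u : ℝ) :
    IntegrableOn (fun v : ℝ => (f (u - v) : ℂ) * ka t v) (Ioi 0) := by
  refine Integrable.mono' (int_exp_half.const_mul K) ?_ ?_
  · apply Measurable.aestronglyMeasurable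
    have := h.meas
    have := (ka_cont t).measurable
    fun_prop
  · filter_upwards with v
    rw [norm_mul, norm_ka, Complex.norm_real, Real.norm_eq_abs]
    exact mul_le_mul_of_nonneg_right (h.bd _) (Real.exp_pos _).le

/-- the twist -/
noncomputable def TT (t : ℝ) (f : ℝ → ℝ) (u : ℝ) : ℂ :=
  (f u : ℂ) + Complex.I * t * ∫ v in Ioi (0:ℝ), (f (u - v) : ℂ) * ka t v

theorem TT_add {f g : ℝ → ℝ} {K L : ℝ} (hf : Bd f K) (hg : Bd g L) (t u : ℝ) :
    TT t (fun x => f x + g x) u = TT t f u + TT t g u := by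
  unfold TT
  have e : ∫ v in Ioi (0:ℝ), ((f (u - v) + g (u - v) : ℝ) : ℂ) * ka t v =
      (∫ v in Ioi (0:ℝ), (f (u - v) : ℂ) * ka t v) + ∫ v in Ioi (0:ℝ), (g (u - v) : ℂ) * ka t v := by
    rw [← integral_add (hf.int t u) (hg.int t u)]
    apply integral_congr_ae
    filter_upwards with v
    push_cast; ring
  rw [e]
  push_cast
  ring

theorem integral_ka (t : ℝ) : ∫ v in Ioi (0:ℝ), ka t v = 1 / (1 / 2 - Complex.I * t) := by
  have h := integral_exp_Ioi (z := 1 / 2 - Complex.I * t) (by simp)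
  rw [← h]
  apply integral_congr_ae
  filter_upwards with v
  unfold ka
  congr 1; ring

theorem TT_const (b t u : ℝ) : ‖TT t (fun _ => b) u‖ ≤ |b| := by
  unfold TT
  rw [integral_const_mul, integral_ka]
  have hne : (1 / 2 - Complex.I * t) ≠ 0 := by
    intro h
    have : (1 / 2 - Complex.I * t).re = 0 := by rw [h]; simp
    simp at this
  have e : (b : ℂ) + Complex.I * t * ((b : ℂ) * (1 / (1 / 2 - Complex.I * t))) =
      (b : ℂ) * ((1 / 2) / (1 / 2 - Complex.I * t)) := by
    have hIt : Complex.I * t = 1 / 2 - (1 / 2 - Complex.I * t) := by ring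
    generalize (1 / 2 - Complex.I * t) = D at hIt hne ⊢
    rw [hIt]
    field_simp
    ring
  rw [e, norm_mul, norm_div, Complex.norm_real, Real.norm_eq_abs]
  have h1 : ‖(1 / 2 : ℂ)‖ ≤ ‖(1 / 2 - Complex.I * t)‖ := by
    have h2 := Complex.abs_re_le_norm (1 / 2 - Complex.I * t)
    have h3 : (1 / 2 - Complex.I * t).re = 1 / 2 := by simp
    rw [h3, abs_of_pos (by norm_num : (0:ℝ) < 1 / 2)] at h2
    have h4 : ‖(1 / 2 : ℂ)‖ = 1 / 2 := by norm_num
    rw [h4]; exact h2
  have h5 : ‖(1 / 2 : ℂ)‖ / ‖(1 / 2 - Complex.I * t)‖ ≤ 1 := by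
    rw [div_le_one (norm_pos_iff.mpr hne)]; exact h1
  calc |b| * (‖(1 / 2 : ℂ)‖ / ‖(1 / 2 - Complex.I * t)‖) ≤ |b| * 1 := mul_le_mul_of_nonneg_left h5 (abs_nonneg _)
    _ = |b| := mul_one _

theorem TT_bd {f : ℝ → ℝ} {K : ℝ} (h : Bd f K) (t u : ℝ) : ‖TT t f u‖ ≤ K * (1 + 2 * |t|) := by
  unfold TT
  have h1 : ‖∫ v in Ioi (0:ℝ), (f (u - v) : ℂ) * ka t v‖ ≤ K * 2 := by
    rw [← int_exp_half_val, ← integral_const_mul]
    apply norm_integral_le_of_norm_le (int_exp_half.const_mul K)
    filter_upwards with v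
    rw [norm_mul, norm_ka, Complex.norm_real, Real.norm_eq_abs]
    exact mul_le_mul_of_nonneg_right (h.bd _) (Real.exp_pos _).le
  have h2 : ‖(f u : ℂ)‖ ≤ K := by
    rw [Complex.norm_real, Real.norm_eq_abs]; exact h.bd u
  refine (norm_add_le _ _).trans ?_
  have h3 : ‖Complex.I * t * ∫ v in Ioi (0:ℝ), (f (u - v) : ℂ) * ka t v‖ =
      |t| * ‖∫ v in Ioi (0:ℝ), (f (u - v) : ℂ) * ka t v‖ := by
    rw [norm_mul, norm_mul, Complex.norm_I, one_mul, Complex.norm_real, Real.norm_eq_abs]
  rw [h3]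
  nlinarith [mul_le_mul_of_nonneg_left h1 (abs_nonneg t)]

theorem TT_meas {f : ℝ → ℝ} {K : ℝ} (h : Bd f K) (t : ℝ) : Measurable (TT t f) := by
  unfold TT
  have h1 : StronglyMeasurable (fun u : ℝ => ∫ v in Ioi (0:ℝ), (fun u v : ℝ => (f (u - v) : ℂ) * ka t v) u v) := by
    apply StronglyMeasurable.integral_prod_right (f := fun u v : ℝ => (f (u - v) : ℂ) * ka t v)
    apply Measurable.stronglyMeasurable
    simp only [Function.uncurry_def]
    have := h.meas
    have := (ka_cont t).measurable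
    fun_prop
  have h2 := h1.measurable
  have h3 := h.meas
  have h4 : Measurable (fun u : ℝ => ∫ v in Ioi (0:ℝ), (f (u - v) : ℂ) * ka t v) := h2
  fun_prop

/-- the average of a function over a short interval on the right -/
noncomputable def av (φ : ℝ → ℂ) (δ u : ℝ) : ℂ := ∫ s : ℝ, φ (u + s) * (gt δ s : ℂ)

theorem av_int {φ : ℝ → ℂ} (hm : Measurable φ) {K : ℝ} (hb : ∀ u, ‖φ u‖ ≤ K) (δ u : ℝ) :
    Integrable (fun s : ℝ => φ (u + s) * (gt δ s : ℂ)) := by
  refine Integrable.mono' ((gt_integrable δ).const_mul K) ?_ ?_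
  · apply Measurable.aestronglyMeasurable
    have := (gt_cont δ).measurable
    fun_prop
  · filter_upwards with s
    rw [norm_mul, Complex.norm_real, Real.norm_of_nonneg (gt_nonneg _ _)]
    exact mul_le_mul_of_nonneg_right (hb _) (gt_nonneg _ _)

theorem av_le {φ : ℝ → ℂ} {B δ u : ℝ} (hb : ∀ s, 0 < s → s < δ → ‖φ (u + s)‖ ≤ B) :
    ‖av φ δ u‖ ≤ B * ∫ s : ℝ, gt δ s := by
  unfold av
  rw [← integral_const_mul]
  apply norm_integral_le_of_norm_le ((gt_integrable δ).const_mul B)
  filter_upwards with s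
  rw [norm_mul, Complex.norm_real, Real.norm_of_nonneg (gt_nonneg _ _)]
  rcases le_or_gt s 0 with h | h
  · rw [gt_zero (Or.inl h)]; simp
  rcases le_or_gt δ s with h' | h'
  · rw [gt_zero (Or.inr h')]; simp
  exact mul_le_mul_of_nonneg_right (hb s h h') (gt_nonneg _ _)

theorem sm_bound {f : ℝ → ℝ} {K : ℝ} (h : Bd f K) (δ u : ℝ) : |sm f δ u| ≤ K * ∫ s : ℝ, gt δ s := by
  unfold sm
  rw [← integral_const_mul, ← Real.norm_eq_abs]
  apply norm_integral_le_of_norm_le ((gt_integrable δ).const_mul K)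
  filter_upwards with s
  rw [norm_mul, Real.norm_eq_abs, Real.norm_of_nonneg (gt_nonneg _ _)]
  exact mul_le_mul_of_nonneg_right (h.bd _) (gt_nonneg _ _)

theorem sm_meas {f : ℝ → ℝ} {K : ℝ} (h : Bd f K) (δ : ℝ) : Measurable (sm f δ) := by
  unfold sm
  have h1 : StronglyMeasurable (fun u : ℝ => ∫ s : ℝ, (fun u s : ℝ => f (u + s) * gt δ s) u s) := by
    apply StronglyMeasurable.integral_prod_right (f := fun u s : ℝ => f (u + s) * gt δ s)
    apply Measurable.stronglyMeasurable
    simp only [Function.uncurry_def]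
    have := h.meas
    have := (gt_cont δ).measurable
    fun_prop
  exact h1.measurable

theorem bd_sm {f : ℝ → ℝ} {K : ℝ} (h : Bd f K) (δ : ℝ) : Bd (sm f δ) (K * ∫ s : ℝ, gt δ s) :=
  ⟨sm_meas h δ, sm_bound h δ⟩

/-- the twist commutes with the average -/
theorem av_TT {f : ℝ → ℝ} {K : ℝ} (h : Bd f K) (t δ u : ℝ) : av (TT t f) δ u = TT t (sm f δ) u := by
  have hK := h.nonneg
  set F : ℝ → ℝ → ℂ := fun s v => (f (u + s - v) : ℂ) * ka t v * (gt δ s : ℂ) with hF
  have hdom : Integrable (fun p : ℝ × ℝ => (K * gt δ p.1) * Real.exp (-p.2 / 2))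
      ((volume : Measure ℝ).prod (volume.restrict (Ioi (0:ℝ)))) :=
    Integrable.mul_prod (f := fun s : ℝ => K * gt δ s) (g := fun v : ℝ => Real.exp (-v / 2))
      ((gt_integrable δ).const_mul K) int_exp_half
  have hint : Integrable (Function.uncurry F) ((volume : Measure ℝ).prod (volume.restrict (Ioi (0:ℝ)))) := by
    refine Integrable.mono' hdom ?_ ?_
    · apply Measurable.aestronglyMeasurable
      simp only [hF, Function.uncurry_def]
      have := h.meas
      have := (ka_cont t).measurable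
      have := (gt_cont δ).measurable
      fun_prop
    · filter_upwards with p
      simp only [hF, Function.uncurry_def]
      rw [norm_mul, norm_mul, norm_ka, Complex.norm_real, Complex.norm_real, Real.norm_eq_abs,
        Real.norm_of_nonneg (gt_nonneg _ _)]
      have h1 := h.bd (u + p.1 - p.2)
      have h2 := gt_nonneg δ p.1
      have h3 := Real.exp_pos (-p.2 / 2)
      calc |f (u + p.1 - p.2)| * Real.exp (-p.2 / 2) * gt δ p.1 ≤ K * Real.exp (-p.2 / 2) * gt δ p.1 := by
            apply mul_le_mul_of_nonneg_right _ h2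
            exact mul_le_mul_of_nonneg_right h1 h3.le
        _ = _ := by ring
  have hsw := integral_integral_swap hint
  have e1 : ∀ s : ℝ, ∫ v in Ioi (0:ℝ), F s v = (∫ v in Ioi (0:ℝ), (f (u + s - v) : ℂ) * ka t v) * (gt δ s : ℂ) := by
    intro s
    rw [← integral_mul_const]
  have e2 : ∀ v : ℝ, ∫ s : ℝ, F s v = (sm f δ (u - v) : ℂ) * ka t v := by
    intro v
    unfold sm
    rw [← integral_complex_ofReal, ← integral_mul_const]
    apply integral_congr_ae
    filter_upwards with s
    simp only [hF]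
    rw [show u + s - v = u - v + s by ring]
    push_cast; ring
  simp_rw [e1, e2] at hsw
  unfold av TT
  have i1 : Integrable (fun s : ℝ => (f (u + s) : ℂ) * (gt δ s : ℂ)) := by
    apply av_int (φ := fun x => (f x : ℂ)) (by have := h.meas; fun_prop) (K := K)
    intro x
    rw [Complex.norm_real, Real.norm_eq_abs]; exact h.bd x
  have i2 : Integrable (fun s : ℝ => (∫ v in Ioi (0:ℝ), (f (u + s - v) : ℂ) * ka t v) * (gt δ s : ℂ)) := by
    have := hint.integral_prod_left
    refine this.congr ?_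
    filter_upwards with s
    exact e1 s
  have e3 : ∀ s : ℝ, ((f (u + s) : ℂ) + Complex.I * t * ∫ v in Ioi (0:ℝ), (f (u + s - v) : ℂ) * ka t v) * (gt δ s : ℂ) =
      (f (u + s) : ℂ) * (gt δ s : ℂ) + Complex.I * t *
        ((∫ v in Ioi (0:ℝ), (f (u + s - v) : ℂ) * ka t v) * (gt δ s : ℂ)) := by
    intro s; ring
  simp_rw [e3]
  rw [integral_add i1 (i2.const_mul _), integral_const_mul, hsw]
  congr 1
  unfold sm
  rw [← integral_complex_ofReal]
  apply integral_congr_ae
  filter_upwards with s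
  push_cast; rfl

/-- convergence of translates passes to the twist -/
theorem TT_lim {f : ℝ → ℝ} {K : ℝ} (h : Bd f K) (t : ℝ) {τ : ℕ → ℝ}
    (hτ : ∀ u, Tendsto (fun n => f (τ n + u)) atTop (𝓝 (f u))) (u : ℝ) :
    Tendsto (fun n => TT t f (τ n + u)) atTop (𝓝 (TT t f u)) := by
  unfold TT
  apply Tendsto.add
  · exact (Complex.continuous_ofReal.tendsto _).comp (hτ u)
  · apply Tendsto.const_mul
    apply tendsto_integral_of_dominated_convergence (fun v => K * Real.exp (-v / 2))
    · intro n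
      apply Measurable.aestronglyMeasurable
      have := h.meas
      have := (ka_cont t).measurable
      fun_prop
    · exact int_exp_half.const_mul K
    · intro n
      filter_upwards with v
      rw [norm_mul, norm_ka, Complex.norm_real, Real.norm_eq_abs]
      exact mul_le_mul_of_nonneg_right (h.bd _) (Real.exp_pos _).le
    · filter_upwards with v
      apply Tendsto.mul_const
      have h1 := (Complex.continuous_ofReal.tendsto _).comp (hτ (u - v))
      refine h1.congr (fun n => ?_)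
      simp only [Function.comp_apply]
      rw [show τ n + (u - v) = τ n + u - v by ring]

end Pool.Agent.Helper95.IT
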